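import Pool.Agent.N646.RG.All
import Pool.Agent.W973.HRC.DenK
import Pool.Agent.P8H6.Blk.Almost

/-!
# Almost every admissible set contains a rich family of patterns with the right order of magnitude
-/

set_option autoImplicit false

namespace Pool.Agent.P8H6.Trip

open Finset Filter Topology
open Pool.Agent.N646.RG
open Pool.Agent.W973.HRC (av blowup)

/-- the number of the `n ≤ x` for which all `n + h`, `h ∈ F`, are prime -/
def cnt (x : ℕ) (F : Finset ℕ) : ℕ := ((Icc 1 x).filter (fun n : ℕ => ∀ h ∈ F, (n + h).Prime)).card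

/-- the good transversals -/
def Gt (k M : ℕ) (κ : ℝ) (N M₀ : ℕ) {T : ℕ} (r z : Fin T → ℕ) : Prop :=
  ∃ S : Finset (Fin T), M + 1 ≤ S.card ∧
    ∀ g : Fin (k + 1) → Fin T, Function.Injective g → (∀ i, g i ∈ S) →
      Gdf κ N (fun i => ((1 : ℤ), ((r (g i) + M₀ * z (g i) : ℕ) : ℤ)))

open Classical in
/-- few boxes hence few tuples -/
theorem few_z (k M T K : ℕ) (κ δ' : ℝ) (N M₀ T₁ : ℕ) (hT₁ : 1 ≤ T₁) (r : Fin T → ℕ)
    (h : (((Fintype.piFinset (fun _ : Fin T × Fin K => range T₁)).filter (fun H =>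
      ¬ ∃ (S : Finset (Fin T)) (σ : Fin T → Fin K), M + 1 ≤ S.card ∧
        ∀ g : Fin (k + 1) → Fin T, Function.Injective g → (∀ i, g i ∈ S) →
          Gdf κ N (fun i => sh ((1 : ℤ), ((r (g i) : ℕ) : ℤ)) (M₀ * H (g i, σ (g i)))))).card : ℝ) ≤
      δ' * (T₁ : ℝ) ^ (T * K)) (hK : 1 ≤ K) :
    (((Fintype.piFinset (fun _ : Fin T => range T₁)).filter (fun z =>
      ¬ Gt k M κ N M₀ r z)).card : ℝ) ≤ δ' ^ (1 / (K ^ T : ℕ) : ℝ) * (T₁ : ℝ) ^ T := by
  have : Nonempty (Fin T₁) := ⟨⟨0, hT₁⟩⟩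
  have hn0 : (0 : ℝ) < T₁ := by exact_mod_cast hT₁
  let B : (Fin T → Fin T₁) → Prop := fun z => ¬ Gt k M κ N M₀ r (fun i => (z i : ℕ))
  set a : ℝ := ((univ.filter (fun z : Fin T → Fin T₁ => B z)).card : ℝ) / (T₁ : ℝ) ^ T with ha
  have ha0 : 0 ≤ a := by rw [ha]; positivity
  have hblow := blowup (α := Fin T₁) K T (fun z => if B z then 1 else 0)
    (fun z => by split_ifs <;> norm_num)
  have hav1 : av (fun z : Fin T → Fin T₁ => if B z then (1 : ℝ) else 0) = a := by
    rw [av, ha, Fintype.card_fun, Fintype.card_fin, Fintype.card_fin, sum_boole]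
    push_cast
    rfl
  have hav2 : av (fun H : Fin T → Fin K → Fin T₁ => ∏ c : Fin T → Fin K,
      (if B (fun g => H g (c g)) then (1 : ℝ) else 0)) =
      ((univ.filter (fun H : Fin T → Fin K → Fin T₁ =>
        ∀ c : Fin T → Fin K, B (fun g => H g (c g)))).card : ℝ) / (T₁ : ℝ) ^ (T * K) := by
    rw [av]
    have h1 : ∀ H : Fin T → Fin K → Fin T₁, (∏ c : Fin T → Fin K,
        (if B (fun g => H g (c g)) then (1 : ℝ) else 0)) =
        if ∀ c : Fin T → Fin K, B (fun g => H g (c g)) then 1 else 0 := by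
      intro H
      rw [Finset.prod_boole]
      simp
    rw [sum_congr rfl fun H _ => h1 H, sum_boole, Fintype.card_fun, Fintype.card_fun,
      Fintype.card_fin, Fintype.card_fin, Fintype.card_fin, ← pow_mul]
    push_cast
    rw [mul_comm K T]
  rw [hav1, hav2] at hblow
  have hle : ((univ.filter (fun H : Fin T → Fin K → Fin T₁ =>
        ∀ c : Fin T → Fin K, B (fun g => H g (c g)))).card : ℝ) ≤
      (((Fintype.piFinset (fun _ : Fin T × Fin K => range T₁)).filter (fun H =>
      ¬ ∃ (S : Finset (Fin T)) (σ : Fin T → Fin K), M + 1 ≤ S.card ∧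
        ∀ g : Fin (k + 1) → Fin T, Function.Injective g → (∀ i, g i ∈ S) →
          Gdf κ N (fun i => sh ((1 : ℤ), ((r (g i) : ℕ) : ℤ)) (M₀ * H (g i, σ (g i)))))).card : ℝ) := by
    norm_cast
    refine card_le_card_of_injOn
      (fun (H : Fin T → Fin K → Fin T₁) (x : Fin T × Fin K) => ((H x.1 x.2 : Fin T₁) : ℕ)) ?_ ?_
    · intro H hH
      rw [mem_coe, mem_filter] at hH
      rw [mem_coe, mem_filter, Fintype.mem_piFinset]
      refine ⟨fun x => mem_range.2 (H x.1 x.2).2, ?_⟩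
      rintro ⟨S, σ, hS, hG⟩
      refine hH.2 σ ⟨S, hS, fun g hg hgS => ?_⟩
      have h2 := hG g hg hgS
      unfold sh at h2
      simp only at h2
      have h3 : (fun i => ((1 : ℤ), ((r (g i) + M₀ * ((H (g i) (σ (g i)) : Fin T₁) : ℕ) : ℕ) : ℤ))) =
          (fun i => ((1 : ℤ), ((r (g i) : ℕ) : ℤ) +
            ((M₀ * ((H (g i) (σ (g i)) : Fin T₁) : ℕ) : ℕ) : ℤ))) := by
        funext i
        rw [Nat.cast_add]
      rw [h3]
      exact h2
    · intro H _ H' _ h
      funext g i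
      exact Fin.ext (congrFun h (g, i))
  have hpow : a ^ (K ^ T) ≤ δ' := by
    refine hblow.trans ?_
    rw [div_le_iff₀ (by positivity)]
    exact hle.trans h
  have hKT : 0 < K ^ T := pow_pos (by omega) T
  have hroot : a ≤ δ' ^ (1 / (K ^ T : ℕ) : ℝ) := by
    have h1 : (a ^ (K ^ T)) ^ (1 / (K ^ T : ℕ) : ℝ) = a := by
      rw [one_div]
      exact Real.pow_rpow_inv_natCast ha0 hKT.ne'
    rw [← h1]
    exact Real.rpow_le_rpow (by positivity) hpow (by positivity)
  rw [ha, div_le_iff₀ (by positivity)] at hroot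
  refine le_trans ?_ hroot
  norm_cast
  refine card_le_card_of_injOn (fun z => if hz : ∀ i, z i < T₁ then
    (fun i => (⟨z i, hz i⟩ : Fin T₁)) else (fun _ => Classical.arbitrary _)) ?_ ?_
  · intro z hz
    rw [mem_coe, mem_filter, Fintype.mem_piFinset] at hz
    have hz1 : ∀ i, z i < T₁ := fun i => mem_range.1 (hz.1 i)
    rw [mem_coe, mem_filter]
    refine ⟨mem_univ _, ?_⟩
    simp only [hz1, implies_true, dif_pos]
    exact hz.2
  · intro z hz z' hz' he
    rw [mem_coe, mem_filter, Fintype.mem_piFinset] at hz hz'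
    have hz1 : ∀ i, z i < T₁ := fun i => mem_range.1 (hz.1 i)
    have hz1' : ∀ i, z' i < T₁ := fun i => mem_range.1 (hz'.1 i)
    simp only [hz1, hz1', implies_true, dif_pos] at he
    funext i
    exact congrArg (fun f : Fin T → Fin T₁ => ((f i : Fin T₁) : ℕ)) he


/-- from the transversals to the sets -/
theorem good_of (k M : ℕ) (κ : ℝ) (N M₀ : ℕ) (hN : 18 ≤ N) {T : ℕ} (r z h : Fin T → ℕ)
    (hinj : Function.Injective h) (hh : ∀ i, h i = r i + M₀ * z i) (hG : Gt k M κ N M₀ r z) :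
    ∃ F ⊆ univ.image h, F.card = M + 1 ∧ ∀ G ⊆ F, G.card = k + 1 →
      κ * (N / Real.log N ^ (k + 1)) ≤ (cnt N G : ℝ) := by
  classical
  obtain ⟨S, hS, hS2⟩ := hG
  obtain ⟨S', hS'S, hS'c⟩ := exists_subset_card_eq hS
  refine ⟨S'.image h, image_subset_image (subset_univ _), by
    rw [card_image_of_injective _ hinj, hS'c], ?_⟩
  intro G hG hGc
  -- enumerate `G`
  have hsel : ∀ i : Fin (k + 1), ∃ g ∈ S', h g = G.orderEmbOfFin hGc i := by
    intro i
    have h1 := hG (orderEmbOfFin_mem G hGc i)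
    obtain ⟨g, hg, he⟩ := mem_image.1 h1
    exact ⟨g, hg, he⟩
  choose g hg1 hg2 using hsel
  have hginj : Function.Injective g := by
    intro i j hij
    apply (G.orderEmbOfFin hGc).injective
    rw [← hg2, ← hg2, hij]
  have h1 := hS2 g hginj (fun i => hS'S (hg1 i))
  unfold Gdf at h1
  refine h1.trans ?_
  rw [Nat.cast_le]
  unfold cnt
  apply card_le_card
  intro n hn
  rw [mem_filter] at hn ⊢
  obtain ⟨hn1, hn2⟩ := hn
  unfold IN at hn1
  rw [mem_Icc] at hn1 ⊢
  refine ⟨⟨by omega, by omega⟩, fun y hy => ?_⟩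
  have h2 : y ∈ Set.range (G.orderEmbOfFin hGc) := by
    rw [range_orderEmbOfFin]
    exact hy
  obtain ⟨i, rfl⟩ := h2
  have h3 := hn2 i
  unfold ev at h3
  simp only [one_mul] at h3
  have h4 : ((n : ℤ) + ((r (g i) + M₀ * z (g i) : ℕ) : ℤ)).toNat = n + G.orderEmbOfFin hGc i := by
    rw [← hg2 i, hh (g i)]
    omega
  rw [h4] at h3
  exact h3

/-- the set is admissible -/
def AdmS (H : Finset ℕ) : Prop := ∀ p : ℕ, p.Prime → ∃ n : ℤ, ∀ h ∈ H, ¬ (p : ℤ) ∣ n + h

/-- the exceptional sets -/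
def IsBad (k M : ℕ) (κ : ℝ) (x : ℕ) (H : Finset ℕ) : Prop :=
  AdmS H ∧ ¬ ∃ F ⊆ H, F.card = M + 1 ∧ ∀ G ⊆ F, G.card = k + 1 →
      κ * (x / Real.log x ^ (k + 1)) ≤ (cnt x G : ℝ)

open Classical in
theorem main (k T M : ℕ) (hT : 1 ≤ T) (hTM : (18 / 5 : ℝ) * M < T) (lam ε : ℝ) (hlam : 0 < lam)
    (hε : 0 < ε) : ∃ κ : ℝ, 0 < κ ∧ ∀ᶠ x : ℕ in atTop, ∀ Y : ℕ, lam * Real.log x ≤ Y → 100 * Y ≤ x →
      ((((Icc 1 Y).powersetCard T).filter (fun H => IsBad k M κ x H)).card : ℝ) ≤ ε * (Y : ℝ) ^ T := by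
  obtain ⟨K, hK, H0⟩ := sHITM2 k T M hT hTM
  obtain ⟨M₀, hM₀⟩ : ∃ M₀ : ℕ, M₀ = primorial (T * K) := ⟨_, rfl⟩
  have hM₀1 : 1 ≤ M₀ := by rw [hM₀]; exact primorial_pos _
  have hM₀r : (0 : ℝ) < M₀ := by exact_mod_cast hM₀1
  have hKT : 0 < K ^ T := pow_pos (by omega) T
  obtain ⟨κ, hκ, hev⟩ := H0 M₀ hM₀1 (lam / M₀) ((ε / 4 ^ T) ^ (K ^ T)) (by positivity) (by positivity)
  refine ⟨κ, hκ, ?_⟩
  have hlog : Tendsto (fun N : ℕ => Real.log (N : ℝ)) atTop atTop :=
    Real.tendsto_log_atTop.comp tendsto_natCast_atTop_atTop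
  filter_upwards [hev, eventually_ge_atTop (1000 * M₀ + 1000),
    hlog.eventually_ge_atTop ((M₀ + 1) / lam)] with x hx hx1 hx2
  intro Y hY1 hY2
  have hYM : M₀ + 1 ≤ Y := by
    have h1 : (M₀ : ℝ) + 1 ≤ lam * Real.log x := by
      rw [div_le_iff₀ hlam] at hx2
      linarith
    exact_mod_cast h1.trans hY1
  obtain ⟨T₁, hT₁⟩ : ∃ T₁ : ℕ, T₁ = Y / M₀ + 1 := ⟨_, rfl⟩
  have hT₁1 : 1 ≤ T₁ := by rw [hT₁]; exact Nat.le_add_left 1 _
  have hdm := Nat.div_add_mod Y M₀
  have hml := Nat.mod_lt Y (show 0 < M₀ by omega)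
  have hup : M₀ * T₁ ≤ Y + M₀ := by
    rw [hT₁, Nat.mul_add, mul_one]
    omega
  have hlo : Y < M₀ * T₁ := by
    rw [hT₁, Nat.mul_add, mul_one]
    omega
  have hc1 : lam / M₀ * Real.log x ≤ T₁ := by
    rw [div_mul_eq_mul_div, div_le_iff₀ hM₀r]
    have h1 : (Y : ℝ) < M₀ * T₁ := by exact_mod_cast hlo
    linarith [mul_comm (M₀ : ℝ) T₁]
  have hc2 : 2 * (M₀ * T₁) ≤ x := by omega
  have hmain := hx T₁ hc1 hc2
  -- the residues
  set R : Finset (Fin T → ℕ) := (Fintype.piFinset (fun _ : Fin T => Icc 1 M₀)).filter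
    (fun r => ∀ p : ℕ, p.Prime → ∃ n : ℤ, ∀ g, ¬ (p : ℤ) ∣ n + r g) with hR
  have hz : ∀ r ∈ R, (((Fintype.piFinset (fun _ : Fin T => range T₁)).filter (fun z =>
      ¬ Gt k M κ x M₀ r z)).card : ℝ) ≤ ε / 4 ^ T * (T₁ : ℝ) ^ T := by
    intro r hr
    rw [hR, mem_filter, Fintype.mem_piFinset] at hr
    have h1 := few_z k M T K κ ((ε / 4 ^ T) ^ (K ^ T)) x M₀ T₁ hT₁1 r (by
      refine hmain (fun y => ((1 : ℤ), ((r y.1 : ℕ) : ℤ))) ?_ ?_
      · intro y t ht
        have h2 := mem_Icc.1 (hr.1 y.1)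
        have h3 : M₀ * t ≤ M₀ * T₁ := Nat.mul_le_mul_left _ ht
        unfold Afm sh
        refine ⟨Or.inl rfl, ?_, ?_⟩
        · simp only
          rw [abs_of_nonneg (by positivity)]
          have h4 : 10 * (r y.1 + M₀ * t) ≤ 9 * x := by omega
          exact_mod_cast h4
        · intro s hs1 hs2
          simp only
          push_cast
          have h4 : (0 : ℝ) ≤ (r y.1 : ℝ) + M₀ * t := by positivity
          have h5 : (0 : ℝ) ≤ x := Nat.cast_nonneg _
          linarith
      · intro p hp hpT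
        refine ⟨?_, ?_⟩
        · rw [hM₀]
          unfold primorial
          exact dvd_prod_of_mem _ (by
            rw [mem_filter, mem_range]
            exact ⟨by omega, hp⟩)
        · obtain ⟨n, hn⟩ := hr.2 p hp
          refine ⟨n, fun y => ?_⟩
          simp only [one_mul]
          exact hn y.1) hK
    have h2 : ((ε / 4 ^ T) ^ (K ^ T)) ^ (1 / (K ^ T : ℕ) : ℝ) = ε / 4 ^ T := by
      rw [one_div]
      exact Real.pow_rpow_inv_natCast (by positivity) hKT.ne'
    rw [h2] at h1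
    exact h1
  -- from the sets to the residues and quotients
  have hcard : ((((Icc 1 Y).powersetCard T).filter (fun H => IsBad k M κ x H)).card : ℝ) ≤
      ∑ r ∈ R, (((Fintype.piFinset (fun _ : Fin T => range T₁)).filter (fun z =>
      ¬ Gt k M κ x M₀ r z)).card : ℝ) := by
    rw [← Nat.cast_sum, Nat.cast_le, ← card_sigma]
    have hex : ∀ H ∈ ((Icc 1 Y).powersetCard T).filter (fun H => IsBad k M κ x H),
        ∃ w : (_ : Fin T → ℕ) × (Fin T → ℕ), w ∈ R.sigma (fun r =>
          (Fintype.piFinset (fun _ : Fin T => range T₁)).filter (fun z => ¬ Gt k M κ x M₀ r z)) ∧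
          univ.image (fun i => w.1 i + M₀ * w.2 i) = H := by
      intro H hH
      rw [mem_filter, mem_powersetCard] at hH
      obtain ⟨⟨hH1, hH2⟩, hadm, hbad⟩ := hH
      set h : Fin T → ℕ := fun i => H.orderEmbOfFin hH2 i with hh
      have hhH : ∀ i, h i ∈ H := fun i => orderEmbOfFin_mem H hH2 i
      have hh1 : ∀ i, 1 ≤ h i ∧ h i ≤ Y := fun i => mem_Icc.1 (hH1 (hhH i))
      have hhinj : Function.Injective h := (H.orderEmbOfFin hH2).injective
      have himg : univ.image h = H := by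
        ext y
        rw [mem_image]
        constructor
        · rintro ⟨i, -, rfl⟩
          exact hhH i
        · intro hy
          have h2 : y ∈ Set.range (H.orderEmbOfFin hH2) := by
            rw [range_orderEmbOfFin]
            exact hy
          obtain ⟨i, hi⟩ := h2
          exact ⟨i, mem_univ _, hi⟩
      have hrec : ∀ i, ((h i - 1) % M₀ + 1) + M₀ * ((h i - 1) / M₀) = h i := by
        intro i
        have h3 := Nat.div_add_mod (h i - 1) M₀
        have h4 := (hh1 i).1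
        omega
      refine ⟨⟨fun i => (h i - 1) % M₀ + 1, fun i => (h i - 1) / M₀⟩, ?_, ?_⟩
      · rw [mem_sigma, hR, mem_filter, Fintype.mem_piFinset, mem_filter, Fintype.mem_piFinset]
        refine ⟨⟨fun i => ?_, ?_⟩, fun i => ?_, ?_⟩
        · have h4 := Nat.mod_lt (h i - 1) (show 0 < M₀ by omega)
          simp only
          rw [mem_Icc]
          omega
        · intro p hp
          rcases le_or_gt p (T * K) with hle | hlt
          · obtain ⟨n, hn⟩ := hadm p hp
            refine ⟨n, fun g hd => hn (h g) (hhH g) ?_⟩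
            have h5 : (p : ℤ) ∣ (M₀ : ℤ) := by
              have : p ∣ M₀ := by
                rw [hM₀]
                unfold primorial
                exact dvd_prod_of_mem _ (by
                  rw [mem_filter, mem_range]
                  exact ⟨by omega, hp⟩)
              exact_mod_cast this
            have h6 : n + (h g : ℤ) = (n + (((h g - 1) % M₀ + 1 : ℕ) : ℤ)) +
                M₀ * (((h g - 1) / M₀ : ℕ) : ℤ) := by
              have h7 := hrec g
              have h8 : ((((h g - 1) % M₀ + 1) + M₀ * ((h g - 1) / M₀) : ℕ) : ℤ) = (h g : ℤ) := by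
                rw [h7]
              rw [← h8]
              push_cast
              ring
            rw [h6]
            exact dvd_add hd (h5.mul_right _)
          · have h5 := Pool.Agent.P8H6.Blk.adm_large
              (fun i : Fin T => (((h i - 1) % M₀ + 1 : ℕ) : ℤ)) p hp (by
                rw [Fintype.card_fin]
                have : T * 1 ≤ T * K := Nat.mul_le_mul_left _ hK
                omega)
            exact h5
        · simp only
          rw [mem_range]
          have h4 := (hh1 i).2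
          have h5 := (hh1 i).1
          have h6 : (h i - 1) / M₀ ≤ Y / M₀ := Nat.div_le_div_right (by omega)
          omega
        · intro hG
          apply hbad
          obtain ⟨F, hF1, hF2, hF3⟩ := good_of k M κ x M₀ (by omega) _ _ h hhinj
            (fun i => (hrec i).symm) hG
          refine ⟨F, ?_, hF2, hF3⟩
          rw [himg] at hF1
          exact hF1
      · rw [← himg]
        congr 1
        funext i
        exact hrec i
    choose! w hw1 hw2 using hex
    refine card_le_card_of_injOn w (fun H hH => hw1 H hH) ?_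
    intro H hH H' hH' he
    rw [← hw2 H hH, ← hw2 H' hH', he]
  have hRc : (R.card : ℝ) ≤ (M₀ : ℝ) ^ T := by
    have h1 : R.card ≤ M₀ ^ T := by
      refine (card_le_card (filter_subset _ _)).trans ?_
      rw [Fintype.card_piFinset, prod_const, card_univ, Fintype.card_fin, Nat.card_Icc,
        Nat.add_sub_cancel]
    exact_mod_cast h1
  calc ((((Icc 1 Y).powersetCard T).filter (fun H => IsBad k M κ x H)).card : ℝ) ≤
      ∑ r ∈ R, (((Fintype.piFinset (fun _ : Fin T => range T₁)).filter (fun z =>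
      ¬ Gt k M κ x M₀ r z)).card : ℝ) := hcard
    _ ≤ ∑ r ∈ R, ε / 4 ^ T * (T₁ : ℝ) ^ T := sum_le_sum hz
    _ = R.card * (ε / 4 ^ T * (T₁ : ℝ) ^ T) := by rw [sum_const, nsmul_eq_mul]
    _ ≤ (M₀ : ℝ) ^ T * (ε / 4 ^ T * (T₁ : ℝ) ^ T) := by
        apply mul_le_mul_of_nonneg_right hRc (by positivity)
    _ = ε / 4 ^ T * ((M₀ : ℝ) * T₁) ^ T := by rw [mul_pow]; ring
    _ ≤ ε / 4 ^ T * (4 * (Y : ℝ)) ^ T := by
        apply mul_le_mul_of_nonneg_left _ (by positivity)
        apply pow_le_pow_left₀ (by positivity)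
        have h1 : M₀ * T₁ ≤ 4 * Y := by omega
        exact_mod_cast h1
    _ = ε * (Y : ℝ) ^ T := by
        rw [mul_pow]
        field_simp

end Pool.Agent.P8H6.Trip
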